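import Pool.Agent.Q94.LogCapD

/-!
# The ratio of the `n`-th diameter to the capacity for shrinking neighbourhoods

For every non-empty compact `K ⊆ ℂ` the ratio `δ_n(K^{1/n}) / C(K^{1/n})` tends to `1`.
-/

open Q94.LC Filter
open scoped Topology

theorem Pool.Agent.Results.MP_d057eb_an.RatioTendsToOne.result
    {K : Set ℂ} (hK : IsCompact K) (hne : K.Nonempty) :
    Tendsto (fun n : ℕ => diam n (Metric.cthickening (1 / (n : ℝ)) K)
      / cap (Metric.cthickening (1 / (n : ℝ)) K)) atTop (𝓝 1) :=
  ratio_tendsto hK hne
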